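import Pool.Agent.Lib.MP_813e56_al.Main

/-!
The quandle homology of `𝔖_3^m` for even `m` not divisible by `3`.

`symOp 3 m` is the operation `x * y = y^{-m} x y^m` on `𝔖_3`, and `HQ (symOp_isQuandle 3 m) k` is
its quandle homology group of degree `k + 1`, computed from the complex `C^R / C^D` of the
problem.
-/

namespace Pool.Agent.Results.MP_813e56_al.SymmetricThreeEven

open Pool.Agent.Lib.MP_813e56_al

theorem result (m : ℤ) (h2 : 2 ∣ m) (h3 : ¬ (3 : ℤ) ∣ m) (k : ℕ) :
    Nonempty (HQ (symOp_isQuandle 3 m) k ≃ₗ[ℤ] (Fin (4 * 3 ^ k) → ℤ)) :=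
  symmetric_three m h2 h3 k

end Pool.Agent.Results.MP_813e56_al.SymmetricThreeEven
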