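import Pool.Agent.Lib.MP_813e56_al.SixO

/-!
For odd `m`, every torsion element of every quandle homology group of `𝔖_3^m` has order a power
of three.

`symOp 3 m` is the operation `x * y = y^{-m} x y^m` on `𝔖_3`, and `HQ (symOp_isQuandle 3 m) k` is
its quandle homology group of degree `k + 1`, computed from the complex `C^R / C^D` of the
problem.
-/

namespace Pool.Agent.Results.MP_813e56_al.ThreePrimaryOdd

open Pool.Agent.Lib.MP_813e56_al

/-- The quandle homology group `H^Q_{k+1}` as an additive group. -/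
def HGrp {Q : Type} {op : Q → Q → Q} (h : IsQuandle op) (k : ℕ) : Type := HQ h k

noncomputable instance {Q : Type} {op : Q → Q → Q} (h : IsQuandle op) (k : ℕ) :
    AddCommGroup (HGrp h k) :=
  Submodule.Quotient.addCommGroup
    ((LinearMap.range (dQ h (k + 1))).submoduleOf (LinearMap.ker (dQ h k)))

theorem result (m : ℤ) (hm : ¬ 2 ∣ m) (k : ℕ) (ξ : HGrp (symOp_isQuandle 3 m) k)
    (hξ : IsOfFinAddOrder ξ) : ∃ t : ℕ, addOrderOf ξ = 3 ^ t := by
  have hpos : 0 < addOrderOf ξ := hξ.addOrderOf_pos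
  have h0 : ((addOrderOf ξ : ℕ) : ℤ) • ξ = 0 := by
    rw [natCast_zsmul, addOrderOf_nsmul_eq_zero]
  obtain ⟨t, ht⟩ := three_primary_odd m hm k ξ (addOrderOf ξ : ℕ) (by exact_mod_cast hpos.ne') h0
  have h1 : (3 ^ t) • ξ = 0 := by
    rw [← natCast_zsmul]
    push_cast
    exact ht
  obtain ⟨s, -, hs⟩ := (Nat.dvd_prime_pow Nat.prime_three).1 (addOrderOf_dvd_of_nsmul_eq_zero h1)
  exact ⟨s, hs⟩

end Pool.Agent.Results.MP_813e56_al.ThreePrimaryOdd
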