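import Pool.Agent.Lib.MP_813e56_al.TorMain

/-!
Three-torsion in the quandle homology of `𝔖_3^m` for odd `m`, in every degree at least two.

`symOp 3 m` is the operation `x * y = y^{-m} x y^m` on `𝔖_3`, and `HQ (symOp_isQuandle 3 m) k` is
its quandle homology group of degree `k + 1`, computed from the complex `C^R / C^D` of the
problem.
-/

namespace Pool.Agent.Results.MP_813e56_al.ThreeTorsionOdd

open Pool.Agent.Lib.MP_813e56_al

/-- The quandle homology group `H^Q_{k+1}` as an additive group. -/
def HGrp {Q : Type} {op : Q → Q → Q} (h : IsQuandle op) (k : ℕ) : Type := HQ h k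

noncomputable instance {Q : Type} {op : Q → Q → Q} (h : IsQuandle op) (k : ℕ) :
    AddCommGroup (HGrp h k) :=
  Submodule.Quotient.addCommGroup
    ((LinearMap.range (dQ h (k + 1))).submoduleOf (LinearMap.ker (dQ h k)))

theorem result (m : ℤ) (hm : ¬ 2 ∣ m) (k : ℕ) (hk : 1 ≤ k) :
    ∃ f : (Fin (2 ^ (k - 2)) → ZMod 3) →+ HGrp (symOp_isQuandle 3 m) k, Function.Injective f :=
  torsion_odd m hm k hk

end Pool.Agent.Results.MP_813e56_al.ThreeTorsionOdd
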