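import Pool.Agent.Lib.MP_813e56_al.DSym

/-!
Subgroups `(Z/d)^N` in the quandle homology of `𝔖_n^m`, for `n` at least four and every
nontrivial quandle `𝔖_n^m`, in every degree at least two.

`symOp n m` is the operation `x * y = y^{-m} x y^m` on `𝔖_n`, and `HQ (symOp_isQuandle n m) k` is
its quandle homology group of degree `k + 1`, computed from the complex `C^R / C^D` of the
problem. `rkD n m d` is the number of conjugacy classes of `𝔖_n` minus one, and minus two if
`d` is even and `m` is odd.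
-/

namespace Pool.Agent.Results.MP_813e56_al.TorsionGrowth

open Pool.Agent.Lib.MP_813e56_al

/-- The quandle homology group `H^Q_{k+1}` as an additive group. -/
def HGrp {Q : Type} {op : Q → Q → Q} (h : IsQuandle op) (k : ℕ) : Type := HQ h k

noncomputable instance {Q : Type} {op : Q → Q → Q} (h : IsQuandle op) (k : ℕ) :
    AddCommGroup (HGrp h k) :=
  Submodule.Quotient.addCommGroup
    ((LinearMap.range (dQ h (k + 1))).submoduleOf (LinearMap.ker (dQ h k)))

theorem result {n : ℕ} (hn : 4 ≤ n) (m : ℤ) (hm : ∃ y : Equiv.Perm (Fin n), y ^ m ≠ 1)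
    {d : ℕ} (hd : 2 ≤ d) (hdn : d ≤ n) (h2 : 2 ∣ d → d + 2 ≤ n)
    (h : d = 2 ∨ 5 ≤ n ∨ ¬ (2 : ℤ) ∣ m) :
    3 ≤ rkD n m d ∧ ∀ k : ℕ, 1 ≤ k →
      ∃ f : (Fin ((rkD n m d) ^ (k - 2)) → ZMod d) →+
        HGrp (symOp_isQuandle n m) k, Function.Injective f :=
  all_rankD hn hm hd hdn h2 h

end Pool.Agent.Results.MP_813e56_al.TorsionGrowth
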